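import Pool.Agent.Lib_helper33.HOMF.MA

/-!
# Half or almost all: definitions

The project TA (MP_49610d_nt): means on the integers, paths in a symmetric set, typical differences.
-/

set_option autoImplicit false

namespace Pool.Agent.TA

open Pool.Agent.HOM

/-- The measure of a set for a mean. -/
noncomputable def ms {X : Type*} (m : Mn X) (S : Set X) : ℝ := m.L (S.indicator fun _ => (1 : ℝ))

/-- `m` is invariant under `x ↦ -x`. -/
def Evn (m : Mn ℤ) : Prop := ∀ f : ℤ → ℝ, Bd f → m.L (fun x => f (-x)) = m.L f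

/-- An even invariant mean and a symmetric set. -/
structure Sym (m : Mn ℤ) (C : Set ℤ) : Prop where
  inv : m.Inv
  evn : Evn m
  neg : ∀ x, -x ∈ C ↔ x ∈ C

/-- The measure of the set of starting points of the paths in `C` with steps `a`, `b`. -/
noncomputable def P (m : Mn ℤ) (C : Set ℤ) (a b : ℤ) : ℝ :=
  ms m {x | x ∈ C ∧ x + a ∈ C ∧ x + a + b ∈ C}

/-- Typical differences. -/
def Typ (m : Mn ℤ) (C : Set ℤ) (η : ℝ) : Set ℤ :=
  {v | v ∈ C ∧ m.L ({u | u ∈ C ∧ u - v ∈ C}.indicator fun u => P m C u (-v)) ≤ η ^ 2}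

/-- Null for all invariant means. -/
def Null (S : Set ℤ) : Prop := ∀ m : Mn ℤ, m.Inv → ms m S = 0

/-- The density of the quadruples of points with all differences in `C` is zero. -/
def K4N (C : Set ℤ) : Prop := ∀ m₁ m₂ m₃ : Mn ℤ, m₁.Inv → m₂.Inv → m₃.Inv →
  m₃.L (C.indicator fun v => m₂.L ({u | u ∈ C ∧ u - v ∈ C}.indicator fun u =>
    ms m₁ {x | x ∈ C ∧ x - u ∈ C ∧ x - v ∈ C})) = 0

/-- The measure of the set of all `x` with `x, x + t ∈ X`. -/
noncomputable def phi (m : Mn ℤ) (X : Set ℤ) (t : ℤ) : ℝ := ms m {x | x ∈ X ∧ x + t ∈ X}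

/-- `X` is one half of the set of typical differences. -/
structure Cls (m : Mn ℤ) (C : Set ℤ) (η : ℝ) (X : Set ℤ) : Prop where
  sub : X ⊆ Typ m C η
  cov : ∀ p ∈ Typ m C η, p ∈ X ∨ -p ∈ X
  dis : ∀ p ∈ X, -p ∉ X
  low : ∀ p ∈ X, ∀ s ∈ X, P m C p s ≤ 2 * η
  high : ∀ p ∈ X, ∀ s ∈ X, 2 * η < P m C p (-s)

/-! ### basic properties of the measure -/

section ms
variable {X : Type*} (m : Mn X)

theorem bd_ind (S : Set X) : Bd (S.indicator fun _ => (1 : ℝ)) := by
  refine Bd.of_abs_le 1 fun x => ?_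
  by_cases h : x ∈ S <;> simp [h]

/-- An indicator times a bounded function is bounded. -/
theorem bd_indicator (S : Set X) {f : X → ℝ} (hf : Bd f) : Bd (S.indicator f) := by
  obtain ⟨B, hB⟩ := hf
  refine Bd.of_abs_le |B| fun x => ?_
  by_cases h : x ∈ S
  · rw [Set.indicator_of_mem h]
    exact (hB x).trans (le_abs_self B)
  · rw [Set.indicator_of_notMem h, abs_zero]
    exact abs_nonneg _

theorem ms_nonneg (S : Set X) : 0 ≤ ms m S :=
  le_L m 0 (bd_ind S) fun x => Set.indicator_nonneg (fun _ _ => zero_le_one) x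

theorem ms_le_one (S : Set X) : ms m S ≤ 1 :=
  L_le m 1 (bd_ind S) fun x => by by_cases h : x ∈ S <;> simp [h]

theorem ms_univ : ms m Set.univ = 1 := by
  unfold ms
  rw [Set.indicator_univ]
  exact m.one

theorem ms_empty : ms m ∅ = 0 := by
  unfold ms
  rw [Set.indicator_empty]
  exact L_const m 0

theorem ms_mono {S T : Set X} (h : S ⊆ T) : ms m S ≤ ms m T :=
  L_mono m (bd_ind S) (bd_ind T) fun x =>
    Set.indicator_le_indicator_of_subset h (fun _ => zero_le_one) x

theorem ms_null_mono {S T : Set X} (h : S ⊆ T) (hT : ms m T = 0) : ms m S = 0 :=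
  le_antisymm (hT ▸ ms_mono m h) (ms_nonneg m S)

theorem ms_union_add_inter (S T : Set X) : ms m (S ∪ T) + ms m (S ∩ T) = ms m S + ms m T := by
  unfold ms
  rw [← map_add, ← map_add]
  congr 1
  ext x
  by_cases h : x ∈ S <;> by_cases h' : x ∈ T <;> simp [h, h']

theorem ms_union_le (S T : Set X) : ms m (S ∪ T) ≤ ms m S + ms m T := by
  have h1 := ms_union_add_inter m S T
  have h2 := ms_nonneg m (S ∩ T)
  linarith

theorem ms_inter_ge (S T : Set X) : ms m S + ms m T - 1 ≤ ms m (S ∩ T) := by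
  have h1 := ms_union_add_inter m S T
  have h2 := ms_le_one m (S ∪ T)
  linarith

theorem ms_disj {S T : Set X} (h : ∀ x ∈ S, x ∉ T) : ms m (S ∪ T) = ms m S + ms m T := by
  have h1 := ms_union_add_inter m S T
  have h2 : S ∩ T = ∅ := by
    ext x
    simp only [Set.mem_inter_iff, Set.mem_empty_iff_false, iff_false, not_and]
    exact h x
  rw [h2, ms_empty] at h1
  linarith

theorem ms_diff_add_inter (S T : Set X) : ms m (S \ T) + ms m (S ∩ T) = ms m S := by
  rw [← ms_disj m (S := S \ T) (T := S ∩ T) (fun x hx h => hx.2 h.2)]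
  congr 1
  ext x
  by_cases h : x ∈ T <;> simp [h]

theorem ms_compl (S : Set X) : ms m Sᶜ = 1 - ms m S := by
  have h1 := ms_diff_add_inter m Set.univ S
  rw [Set.univ_inter, ms_univ, ← Set.compl_eq_univ_sdiff] at h1
  linarith

/-- Sets whose symmetric difference is null have the same measure. -/
theorem ms_congr_null {S T : Set X} (h1 : ms m (S \ T) = 0) (h2 : ms m (T \ S) = 0) :
    ms m S = ms m T := by
  have h3 := ms_diff_add_inter m S T
  have h4 := ms_diff_add_inter m T S
  rw [Set.inter_comm] at h4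
  linarith

theorem ms_nonempty {S : Set X} (h : 0 < ms m S) : S.Nonempty := by
  rw [Set.nonempty_iff_ne_empty]
  rintro rfl
  rw [ms_empty] at h
  exact lt_irrefl _ h

/-- Markov's inequality. -/
theorem ms_markov {f : X → ℝ} (hf : Bd f) (h0 : ∀ x, 0 ≤ f x) (c : ℝ) :
    c * ms m {x | c < f x} ≤ m.L f := by
  unfold ms
  rw [← smul_eq_mul, ← map_smul]
  refine L_mono m ?_ hf fun x => ?_
  · exact (Bd.const c).mulR (bd_ind _)
  · by_cases h : c < f x
    · simp only [Pi.smul_apply, smul_eq_mul, Set.indicator, Set.mem_setOf_eq, h, if_true, mul_one]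
      exact h.le
    · simp only [Pi.smul_apply, smul_eq_mul, Set.indicator, Set.mem_setOf_eq, h, if_false, mul_zero]
      exact h0 x

theorem ms_shift (m : Mn ℤ) (hm : m.Inv) (S : Set ℤ) (a : ℤ) : ms m {x | x + a ∈ S} = ms m S :=
  L_shift m hm (bd_ind S) a

theorem ms_shift_sub (m : Mn ℤ) (hm : m.Inv) (S : Set ℤ) (a : ℤ) :
    ms m {x | x - a ∈ S} = ms m S := by
  simpa only [sub_eq_add_neg] using ms_shift m hm S (-a)

theorem ms_neg (m : Mn ℤ) (hm : Evn m) (S : Set ℤ) : ms m {x | -x ∈ S} = ms m S :=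
  hm _ (bd_ind S)

theorem ms_finset_le (m : Mn X) {ι : Type*} (s : Finset ι) (S : ι → Set X) :
    ms m (⋃ i ∈ s, S i) ≤ ∑ i ∈ s, ms m (S i) := by
  classical
  induction s using Finset.induction_on with
  | empty => simp [ms_empty]
  | insert a s ha ih =>
    rw [Finset.set_biUnion_insert, Finset.sum_insert ha]
    exact (ms_union_le m _ _).trans (by linarith)

end ms

end Pool.Agent.TA
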